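import Pool.Agent.R341.BinForm

set_option autoImplicit false

open MvPolynomial

namespace Pool.Agent.Results.MP_1ed635_nt.TwoMinimal

open Pool.Agent.R341.BinForm

/-- **The quartic `4x⁴ + 6x²y² + y⁴` has exactly two different `ℚ`-minimal representations.** -/
theorem result :
    f0.IsHomogeneous 4 ∧ (∀ m, coeff m f0 ∈ KQ) ∧ kLength KQ 4 f0 = 3 ∧
    MinReps KQ 4 f0 = {M1, M2} ∧ M1 ≠ M2 ∧
    (MinReps KQ 4 f0).Finite ∧ (MinReps KQ 4 f0).ncard = 2 := by
  refine ⟨?_, ?_, length_eq, minReps_eq, M1_ne_M2, ?_, ?_⟩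
  · apply IsHomogeneous.add
    · apply IsHomogeneous.add
      · exact (isHomogeneous_X_pow 0 4).C_mul 4
      · have h1 : (C 6 * X 0 ^ 2 : MvPolynomial (Fin 2) ℂ).IsHomogeneous 2 :=
          (isHomogeneous_X_pow 0 2).C_mul 6
        exact h1.mul (isHomogeneous_X_pow 1 2)
    · exact isHomogeneous_X_pow 1 4
  · intro m
    have h : f0 = MvPolynomial.map (algebraMap ℚ ℂ)
        (C 4 * X 0 ^ 4 + C 6 * X 0 ^ 2 * X 1 ^ 2 + X 1 ^ 4) := by
      simp [f0]
    rw [h, coeff_map]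
    exact ⟨_, rfl⟩
  · rw [minReps_eq]
    exact Set.toFinite _
  · rw [minReps_eq]
    exact Set.ncard_pair M1_ne_M2

end Pool.Agent.Results.MP_1ed635_nt.TwoMinimal
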